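import Pool.Agent.V11109.StSup.Series
import Pool.Agent.V11109.StSup.GammaB

/-!
# Zero-one law for the absolute convergence of the stable supremum series

For every irrational `α ∈ (0,1) ∪ (1,2)` the set of `ρ ∈ (0,1)` at which the double series for the
density of the supremum of a stable process converges absolutely has Lebesgue measure `0` or `1`.
-/

open MeasureTheory Set Filter Real Pool.Agent.V11109.StSup

namespace Pool.Agent.Results.MP_8ec8f8_pr.ZeroOneLaw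

/-- The coefficient `a_{m,n}`. (`Gamma` is the Gamma function, set to be `0` at its poles, and
`1 / 0 = 0`, so that `1 / Gamma` is `0` at the poles, as it should be.) -/
noncomputable def a (α ρ : ℝ) (m n : ℕ) : ℝ :=
  (-1) ^ (m + n) / (Gamma (1 - ρ - n - m / α) * Gamma (α * ρ + m + α * n)) *
    (∏ j ∈ Finset.Icc 1 m, sin (π / α * (α * ρ + j - 1)) / sin (π * j / α)) *
    ∏ j ∈ Finset.Icc 1 n, sin (π * α * (ρ + j - 1)) / sin (π * α * j)

/-- The coefficient `b_{m,n}`, `n ≥ 1`. -/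
noncomputable def b (α ρ : ℝ) (m n : ℕ) : ℝ :=
  Gamma (1 - ρ - n - m / α) * Gamma (α * ρ + m + α * n) /
    (Gamma (1 + n + m / α) * Gamma (-m - α * n)) * a α ρ m n

/-- Absolute convergence at `(α, ρ)`, for all `x > 0`, of the series
`x^(-1-α) ∑_n ∑_m b_{m,n+1} x^(-m-αn)` if `α < 1` and of `x^(αρ-1) ∑_n ∑_m a_{m,n} x^(m+αn)`
otherwise. -/
def ConvergesAbsolutely (α ρ : ℝ) : Prop :=
  if α < 1 then
    ∀ x : ℝ, 0 < x → Summable fun p : ℕ × ℕ =>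
      |x ^ (-1 - α) * (b α ρ p.1 (p.2 + 1) * x ^ (-(p.1 : ℝ) - α * p.2))|
  else
    ∀ x : ℝ, 0 < x → Summable fun p : ℕ × ℕ =>
      |x ^ (α * ρ - 1) * (a α ρ p.1 p.2 * x ^ ((p.1 : ℝ) + α * p.2))|

/-- `∏_{j=1}^m |sin (π j / α)|` -/
noncomputable def DD (α : ℝ) (m : ℕ) : ℝ := ∏ j ∈ Finset.Icc 1 m, |sin (π * j / α)|

/-- `∏_{j=1}^n |sin (π α j)|` -/
noncomputable def EE (α : ℝ) (n : ℕ) : ℝ := ∏ j ∈ Finset.Icc 1 n, |sin (π * α * j)|

theorem DD_nonneg (α : ℝ) (m : ℕ) : 0 ≤ DD α m := Finset.prod_nonneg fun _ _ => abs_nonneg _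

theorem EE_nonneg (α : ℝ) (m : ℕ) : 0 ≤ EE α m := Finset.prod_nonneg fun _ _ => abs_nonneg _

theorem prod_P {α : ℝ} (hα : α ≠ 0) (ρ : ℝ) (m : ℕ) :
    |∏ j ∈ Finset.Icc 1 m, sin (π / α * (α * ρ + j - 1)) / sin (π * j / α)| =
      P α m ρ / DD α m := by
  rw [Finset.abs_prod, DD, P]
  simp only [abs_div]
  rw [Finset.prod_div_distrib]
  congr 1
  induction m with
  | zero => simp
  | succ m ih =>
    rw [Finset.prod_Icc_succ_top (by omega), ih, Finset.prod_range_succ]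
    congr 3
    push_cast
    field_simp
    ring

theorem prod_R {α : ℝ} (ρ : ℝ) (n : ℕ) :
    |∏ j ∈ Finset.Icc 1 n, sin (π * α * (ρ + j - 1)) / sin (π * α * j)| =
      R α n ρ / EE α n := by
  rw [Finset.abs_prod, EE, R]
  simp only [abs_div]
  rw [Finset.prod_div_distrib]
  congr 1
  induction n with
  | zero => simp
  | succ n ih =>
    rw [Finset.prod_Icc_succ_top (by omega), ih, Finset.prod_range_succ]
    congr 3
    push_cast
    ring

theorem abs_a {α ρ : ℝ} (hα : 0 < α) (hρ : 0 < ρ) (m n : ℕ) :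
    |a α ρ m n| = |Gamma (1 - (ρ + (n + m / α)))|⁻¹ * (Gamma (α * (ρ + (n + m / α))))⁻¹ *
      (P α m ρ / DD α m) * (R α n ρ / EE α n) := by
  have e1 : 1 - ρ - n - m / α = 1 - (ρ + (n + m / α)) := by ring
  have e2 : α * ρ + m + α * n = α * (ρ + (n + m / α)) := by
    field_simp
    ring
  have hG : 0 < Gamma (α * (ρ + (n + m / α))) := Gamma_pos_of_pos (by positivity)
  unfold a
  rw [e1, e2, abs_mul, abs_mul, prod_P hα.ne', prod_R, abs_div, abs_mul, abs_pow, abs_neg, abs_one,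
    one_pow, abs_of_pos hG, one_div, mul_inv]

/-- the case `α > 1` -/
theorem conv_iff_of_one_lt {α ρ : ℝ} (hα1 : 1 < α) (hα2 : α < 2) (hρ0 : 0 < ρ) (hρ1 : ρ < 1) :
    ConvergesAbsolutely α ρ ↔ Cv α (W α (fun m n => Gamma (1 + (n + m / α)) *
      (Gamma (α * (1 + (n + m / α))))⁻¹ * π⁻¹ * (DD α m)⁻¹ * (EE α n)⁻¹) 1 0 ρ) := by
  have hα : 0 < α := by linarith
  rw [ConvergesAbsolutely, if_neg (by linarith)]
  have hc : ∀ m n : ℕ, 0 ≤ Gamma (1 + ((n : ℝ) + m / α)) *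
      (Gamma (α * (1 + ((n : ℝ) + m / α))))⁻¹ * π⁻¹ * (DD α m)⁻¹ * (EE α n)⁻¹ := by
    intro m n
    have h1 : 0 < Gamma (1 + ((n : ℝ) + m / α)) := Gamma_pos_of_pos (by positivity)
    have h2 : 0 < Gamma (α * (1 + ((n : ℝ) + m / α))) := Gamma_pos_of_pos (by positivity)
    have h3 := DD_nonneg α m
    have h4 := EE_nonneg α n
    positivity
  have h0 : (∀ x : ℝ, 0 < x → Summable fun p : ℕ × ℕ =>
      |x ^ (α * ρ - 1) * (a α ρ p.1 p.2 * x ^ ((p.1 : ℝ) + α * p.2))|) ↔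
      Cv α fun m n => |a α ρ m n| := by
    refine forall_congr' fun x => imp_congr_right fun hx => ?_
    have e : (fun p : ℕ × ℕ => |x ^ (α * ρ - 1) * (a α ρ p.1 p.2 * x ^ ((p.1 : ℝ) + α * p.2))|) =
        fun p : ℕ × ℕ => x ^ (α * ρ - 1) * (|a α ρ p.1 p.2| * x ^ ((p.1 : ℝ) + α * p.2)) := by
      funext p
      rw [abs_mul, abs_mul, abs_of_pos (rpow_pos_of_pos hx _), abs_of_pos (rpow_pos_of_pos hx _)]
    rw [e]
    exact summable_mul_left_iff (rpow_pos_of_pos hx _).ne'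
  rw [h0]
  -- the explicit form of the coefficients
  have hform : ∀ m n : ℕ, |a α ρ m n| = Gamma (ρ + (n + m / α)) *
      (Gamma (α * (ρ + (n + m / α))))⁻¹ * π⁻¹ * (DD α m)⁻¹ * (EE α n)⁻¹ *
      P α (m + 1) ρ * R α n ρ := by
    intro m n
    have hz : 0 < ρ + (n + m / α) := by positivity
    rw [abs_a hα hρ0, ← abs_inv, inv_gamma_one_sub hz, abs_div, abs_mul,
      abs_of_pos (Gamma_pos_of_pos hz), abs_of_pos pi_pos, P_succ]
    have e1 : |sin (π * (ρ + (n + m / α)))| = |sin (π * (ρ + m / α))| := by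
      have : π * (ρ + (n + m / α)) = π * (ρ + m / α) + n * π := by ring
      rw [this, sin_add_nat_mul_pi, abs_mul]
      simp
    rw [e1]
    ring
  have hy : ∀ m n : ℕ, (0 : ℝ) ≤ n + m / α := fun m n => by positivity
  have hy2 : ∀ m n : ℕ, (n : ℝ) + m / α ≤ m + n := by
    intro m n
    have : (m : ℝ) / α ≤ m := div_le_self (Nat.cast_nonneg _) hα1.le
    linarith
  have hPR : ∀ m n : ℕ, 0 ≤ π⁻¹ * (DD α m)⁻¹ * (EE α n)⁻¹ * P α (m + 1) ρ * R α n ρ := by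
    intro m n
    have h3 := DD_nonneg α m
    have h4 := EE_nonneg α n
    have h5 := P_nonneg α (m + 1) ρ
    have h6 := R_nonneg α n ρ
    have := pi_pos
    positivity
  constructor
  · refine Cv.of_le hα (fun m n => abs_nonneg _) (fun m n => W_nonneg hc _ _ _ _ _)
      (C := 4 * 8 ^ 2 / ρ) (k := 3) fun m n => ?_
    set y : ℝ := n + m / α with hydef
    have hyn := hy m n
    have hym := hy2 m n
    rw [← hydef] at hyn hym
    have hz : 0 < ρ + y := by linarith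
    have g1 := gamma_add_le (y := ρ + y) (β := 1 - ρ) (N := 1) hz (by linarith)
      (by push_cast; linarith)
    have g2 := le_gamma_add (y := α * (ρ + y)) (β := α * (1 - ρ)) (N := 2) (by positivity)
      two_ne_zero (by nlinarith) (by push_cast; nlinarith)
    rw [show ρ + y + (1 - ρ) = 1 + y by ring] at g1
    rw [show α * (ρ + y) + α * (1 - ρ) = α * (1 + y) by ring] at g2
    have hG1 : 0 < Gamma (α * (ρ + y)) := Gamma_pos_of_pos (by positivity)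
    have hG2 : 0 < Gamma (α * (1 + y)) := Gamma_pos_of_pos (by positivity)
    have hG3 : 0 < Gamma (ρ + y) := Gamma_pos_of_pos hz
    have hmin : ρ ≤ min 1 (α * (ρ + y)) := by
      refine le_min hρ1.le ?_
      nlinarith
    have g3 : (Gamma (α * (1 + y)))⁻¹ ≤
        (α * (ρ + y) + 2 * (2 : ℕ) + 1) ^ 2 / ρ * (Gamma (α * (ρ + y)))⁻¹ := by
      rw [inv_eq_one_div, inv_eq_one_div, div_mul_div_comm, mul_one, div_le_div_iff₀ hG2
        (by positivity), one_mul]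
      calc ρ * Gamma (α * (ρ + y)) ≤ min 1 (α * (ρ + y)) * Gamma (α * (ρ + y)) := by gcongr
        _ = Gamma (α * (ρ + y)) * min 1 (α * (ρ + y)) := mul_comm _ _
        _ ≤ _ := g2
        _ = _ := mul_comm _ _
    have b1 : ρ + y + (1 : ℕ) + 1 ≤ 4 * ((m : ℝ) + n + 1) := by
      push_cast
      have hm : (0 : ℝ) ≤ m := Nat.cast_nonneg _
      have hn : (0 : ℝ) ≤ n := Nat.cast_nonneg _
      linarith
    have b2 : α * (ρ + y) + 2 * (2 : ℕ) + 1 ≤ 8 * ((m : ℝ) + n + 1) := by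
      push_cast
      have hm : (0 : ℝ) ≤ m := Nat.cast_nonneg _
      have hn : (0 : ℝ) ≤ n := Nat.cast_nonneg _
      have : α * (ρ + y) ≤ 2 * (1 + y) := by
        apply mul_le_mul hα2.le (by linarith) hz.le (by norm_num)
      linarith
    have hmn : (0 : ℝ) < (m : ℝ) + n + 1 := by positivity
    have b3 : Gamma (1 + y) * (Gamma (α * (1 + y)))⁻¹ ≤
        (4 * 8 ^ 2 / ρ) * ((m : ℝ) + n + 1) ^ 3 *
          (Gamma (ρ + y) * (Gamma (α * (ρ + y)))⁻¹) := by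
      calc Gamma (1 + y) * (Gamma (α * (1 + y)))⁻¹
          ≤ (Gamma (ρ + y) * (ρ + y + (1 : ℕ) + 1) ^ 1) *
              ((α * (ρ + y) + 2 * (2 : ℕ) + 1) ^ 2 / ρ * (Gamma (α * (ρ + y)))⁻¹) := by
            gcongr
        _ ≤ (Gamma (ρ + y) * (4 * ((m : ℝ) + n + 1)) ^ 1) *
              ((8 * ((m : ℝ) + n + 1)) ^ 2 / ρ * (Gamma (α * (ρ + y)))⁻¹) := by
            gcongr
        _ = _ := by ring
    have hPR' := hPR m n
    rw [hform m n, W, add_zero]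
    calc _ = (Gamma (1 + y) * (Gamma (α * (1 + y)))⁻¹) *
          (π⁻¹ * (DD α m)⁻¹ * (EE α n)⁻¹ * P α (m + 1) ρ * R α n ρ) := by ring
      _ ≤ ((4 * 8 ^ 2 / ρ) * ((m : ℝ) + n + 1) ^ 3 *
          (Gamma (ρ + y) * (Gamma (α * (ρ + y)))⁻¹)) *
          (π⁻¹ * (DD α m)⁻¹ * (EE α n)⁻¹ * P α (m + 1) ρ * R α n ρ) := by gcongr
      _ = _ := by ring
  · refine Cv.of_le hα (fun m n => W_nonneg hc _ _ _ _ _) (fun m n => abs_nonneg _)
      (C := 5 * 6 ^ 2 / ρ) (k := 3) fun m n => ?_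
    set y : ℝ := n + m / α with hydef
    have hyn := hy m n
    have hym := hy2 m n
    rw [← hydef] at hyn hym
    have hz : 0 < ρ + y := by linarith
    have g1 := le_gamma_add (y := ρ + y) (β := 1 - ρ) (N := 1) hz one_ne_zero (by linarith)
      (by push_cast; linarith)
    have g2 := gamma_add_le (y := α * (ρ + y)) (β := α * (1 - ρ)) (N := 2) (by positivity)
      (by nlinarith) (by push_cast; nlinarith)
    rw [show ρ + y + (1 - ρ) = 1 + y by ring] at g1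
    rw [show α * (ρ + y) + α * (1 - ρ) = α * (1 + y) by ring] at g2
    have hG1 : 0 < Gamma (α * (ρ + y)) := Gamma_pos_of_pos (by positivity)
    have hG2 : 0 < Gamma (α * (1 + y)) := Gamma_pos_of_pos (by positivity)
    have hG3 : 0 < Gamma (ρ + y) := Gamma_pos_of_pos hz
    have hG4 : 0 < Gamma (1 + y) := Gamma_pos_of_pos (by linarith)
    have hmin : ρ ≤ min 1 (ρ + y) := le_min hρ1.le (by linarith)
    have g3 : Gamma (ρ + y) ≤ (ρ + y + 2 * (1 : ℕ) + 1) ^ 1 / ρ * Gamma (1 + y) := by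
      rw [div_mul_eq_mul_div, le_div_iff₀ hρ0]
      calc Gamma (ρ + y) * ρ ≤ Gamma (ρ + y) * min 1 (ρ + y) := by gcongr
        _ ≤ _ := g1
        _ = _ := mul_comm _ _
    have g4 : (Gamma (α * (ρ + y)))⁻¹ ≤
        (α * (ρ + y) + (2 : ℕ) + 1) ^ 2 * (Gamma (α * (1 + y)))⁻¹ := by
      rw [inv_eq_one_div, ← div_eq_mul_inv, div_le_div_iff₀ hG1 hG2, one_mul, mul_comm]
      rw [mul_comm] at g2
      linarith
    have b1 : ρ + y + 2 * (1 : ℕ) + 1 ≤ 5 * ((m : ℝ) + n + 1) := by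
      push_cast
      have hm : (0 : ℝ) ≤ m := Nat.cast_nonneg _
      have hn : (0 : ℝ) ≤ n := Nat.cast_nonneg _
      linarith
    have b2 : α * (ρ + y) + (2 : ℕ) + 1 ≤ 6 * ((m : ℝ) + n + 1) := by
      push_cast
      have hm : (0 : ℝ) ≤ m := Nat.cast_nonneg _
      have hn : (0 : ℝ) ≤ n := Nat.cast_nonneg _
      have : α * (ρ + y) ≤ 2 * (1 + y) := by
        apply mul_le_mul hα2.le (by linarith) hz.le (by norm_num)
      linarith
    have hmn : (0 : ℝ) < (m : ℝ) + n + 1 := by positivity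
    have b3 : Gamma (ρ + y) * (Gamma (α * (ρ + y)))⁻¹ ≤
        (5 * 6 ^ 2 / ρ) * ((m : ℝ) + n + 1) ^ 3 *
          (Gamma (1 + y) * (Gamma (α * (1 + y)))⁻¹) := by
      calc Gamma (ρ + y) * (Gamma (α * (ρ + y)))⁻¹
          ≤ ((ρ + y + 2 * (1 : ℕ) + 1) ^ 1 / ρ * Gamma (1 + y)) *
              ((α * (ρ + y) + (2 : ℕ) + 1) ^ 2 * (Gamma (α * (1 + y)))⁻¹) := by
            gcongr
        _ ≤ ((5 * ((m : ℝ) + n + 1)) ^ 1 / ρ * Gamma (1 + y)) *
              ((6 * ((m : ℝ) + n + 1)) ^ 2 * (Gamma (α * (1 + y)))⁻¹) := by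
            gcongr
        _ = _ := by ring
    have hPR' := hPR m n
    rw [hform m n, W, add_zero]
    calc _ = (Gamma (ρ + y) * (Gamma (α * (ρ + y)))⁻¹) *
          (π⁻¹ * (DD α m)⁻¹ * (EE α n)⁻¹ * P α (m + 1) ρ * R α n ρ) := by ring
      _ ≤ ((5 * 6 ^ 2 / ρ) * ((m : ℝ) + n + 1) ^ 3 *
          (Gamma (1 + y) * (Gamma (α * (1 + y)))⁻¹)) *
          (π⁻¹ * (DD α m)⁻¹ * (EE α n)⁻¹ * P α (m + 1) ρ * R α n ρ) := by gcongr
      _ = _ := by ring

/-- the case `α < 1` -/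
theorem conv_iff_of_lt_one {α ρ : ℝ} (hα : 0 < α) (hα1 : α < 1) (hρ0 : 0 < ρ)
    (hs : ∀ m n : ℕ, sin (π * (ρ + (n + m / α))) ≠ 0) :
    ConvergesAbsolutely α ρ ↔ Cv α (W α (fun m n => |Gamma (1 + (n + 1 : ℕ) + m / α) *
      Gamma (-m - α * (n + 1 : ℕ))|⁻¹ * (DD α m)⁻¹ * (EE α (n + 1))⁻¹) 0 1 ρ) := by
  rw [ConvergesAbsolutely, if_pos hα1]
  have hform : ∀ m n : ℕ, |b α ρ m (n + 1)| = W α (fun m n => |Gamma (1 + (n + 1 : ℕ) + m / α) *
      Gamma (-m - α * (n + 1 : ℕ))|⁻¹ * (DD α m)⁻¹ * (EE α (n + 1))⁻¹) 0 1 ρ m n := by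
    intro m n
    have hz : 0 < ρ + ((n + 1 : ℕ) + m / α) := by positivity
    have e1 : 1 - ρ - (n + 1 : ℕ) - m / α = 1 - (ρ + ((n + 1 : ℕ) + m / α)) := by ring
    have e2 : α * ρ + m + α * (n + 1 : ℕ) = α * (ρ + ((n + 1 : ℕ) + m / α)) := by
      field_simp
      ring
    have hG : 0 < Gamma (α * (ρ + ((n + 1 : ℕ) + m / α))) := Gamma_pos_of_pos (by positivity)
    have hG1 : Gamma (1 - (ρ + ((n + 1 : ℕ) + m / α))) ≠ 0 := by
      intro h0
      have := inv_gamma_one_sub hz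
      rw [h0, inv_zero] at this
      have h1 : Gamma (ρ + ((n + 1 : ℕ) + m / α)) ≠ 0 := (Gamma_pos_of_pos hz).ne'
      have h2 : Gamma (ρ + ((n + 1 : ℕ) + m / α)) * sin (π * (ρ + ((n + 1 : ℕ) + m / α))) / π ≠ 0 :=
        div_ne_zero (mul_ne_zero h1 (hs m (n + 1))) pi_ne_zero
      exact h2 this.symm
    unfold b W
    rw [abs_mul, abs_a hα hρ0, abs_div, e1, e2, abs_mul, abs_of_pos hG]
    have hG1' := abs_pos.mpr hG1
    rw [add_zero]
    generalize |Gamma (1 - (ρ + ((n + 1 : ℕ) + m / α)))| = x at hG1' ⊢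
    generalize Gamma (α * (ρ + ((n + 1 : ℕ) + m / α))) = u at hG ⊢
    have hx : x ≠ 0 := hG1'.ne'
    have hu : u ≠ 0 := hG.ne'
    calc _ = (x * x⁻¹) * (u * u⁻¹) * (|Gamma (1 + (n + 1 : ℕ) + m / α) *
          Gamma (-m - α * (n + 1 : ℕ))|⁻¹ * (DD α m)⁻¹ * (EE α (n + 1))⁻¹ * P α m ρ *
          R α (n + 1) ρ) := by ring
      _ = _ := by
          rw [mul_inv_cancel₀ hx, mul_inv_cancel₀ hu]
          ring
  have e : ∀ x : ℝ, 0 < x → ((Summable fun p : ℕ × ℕ =>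
      |x ^ (-1 - α) * (b α ρ p.1 (p.2 + 1) * x ^ (-(p.1 : ℝ) - α * p.2))|) ↔
      Summable fun p : ℕ × ℕ => W α (fun m n => |Gamma (1 + (n + 1 : ℕ) + m / α) *
      Gamma (-m - α * (n + 1 : ℕ))|⁻¹ * (DD α m)⁻¹ * (EE α (n + 1))⁻¹) 0 1 ρ p.1 p.2 *
        (x⁻¹) ^ ((p.1 : ℝ) + α * p.2)) := by
    intro x hx
    have e : (fun p : ℕ × ℕ => |x ^ (-1 - α) * (b α ρ p.1 (p.2 + 1) *
        x ^ (-(p.1 : ℝ) - α * p.2))|) =
        fun p : ℕ × ℕ => x ^ (-1 - α) * (W α (fun m n => |Gamma (1 + (n + 1 : ℕ) + m / α) *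
      Gamma (-m - α * (n + 1 : ℕ))|⁻¹ * (DD α m)⁻¹ * (EE α (n + 1))⁻¹) 0 1 ρ p.1 p.2 *
        (x⁻¹) ^ ((p.1 : ℝ) + α * p.2)) := by
      funext p
      rw [abs_mul, abs_mul, abs_of_pos (rpow_pos_of_pos hx _), abs_of_pos (rpow_pos_of_pos hx _),
        hform, inv_rpow hx.le, ← rpow_neg hx.le]
      congr 3
      ring
    rw [e]
    exact summable_mul_left_iff (rpow_pos_of_pos hx _).ne'
  constructor
  · intro h x hx
    have := (e x⁻¹ (inv_pos.mpr hx)).mp (h x⁻¹ (inv_pos.mpr hx))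
    rwa [inv_inv] at this
  · intro h x hx
    exact (e x hx).mpr (h x⁻¹ (inv_pos.mpr hx))

theorem zero_or_zero (α : ℝ) (hirr : Irrational α) (hα : α ∈ Ioo (0 : ℝ) 1 ∪ Ioo (1 : ℝ) 2) :
    volume {ρ : ℝ | ρ ∈ Ioo (0 : ℝ) 1 ∧ ConvergesAbsolutely α ρ} = 0 ∨
      volume {ρ : ℝ | ρ ∈ Ioo (0 : ℝ) 1 ∧ ¬ ConvergesAbsolutely α ρ} = 0 := by
  have hα0 : 0 < α := by
    rcases hα with h | h
    · exact h.1
    · exact one_pos.trans h.1
  have hs : ∀ᵐ ρ : ℝ, ∀ m n : ℕ, sin (π * (ρ + (n + m / α))) ≠ 0 := by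
    rw [ae_all_iff]
    intro m
    rw [ae_all_iff]
    intro n
    filter_upwards [ae_good one_ne_zero fun _ => (n : ℝ) + m / α] with ρ ⟨c, hc, h⟩ h0
    have := h 0
    rw [one_mul, h0] at this
    simp only [abs_zero, zero_mul] at this
    linarith
  obtain ⟨c, hc, s, t, hiff⟩ : ∃ c : ℕ → ℕ → ℝ, (∀ m n, 0 ≤ c m n) ∧ ∃ s t : ℕ,
      ∀ᵐ ρ : ℝ, ρ ∈ Ioo (0 : ℝ) 1 → (ConvergesAbsolutely α ρ ↔ Cv α (W α c s t ρ)) := by
    rcases hα with h | h
    · refine ⟨fun m n => |Gamma (1 + (n + 1 : ℕ) + m / α) *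
        Gamma (-m - α * (n + 1 : ℕ))|⁻¹ * (DD α m)⁻¹ * (EE α (n + 1))⁻¹, fun m n => ?_, 0, 1, ?_⟩
      · have h3 := DD_nonneg α m
        have h4 := EE_nonneg α (n + 1)
        positivity
      · filter_upwards [hs] with ρ h1 hρ
        exact conv_iff_of_lt_one hα0 h.2 hρ.1 h1
    · refine ⟨fun m n => Gamma (1 + (n + m / α)) *
        (Gamma (α * (1 + (n + m / α))))⁻¹ * π⁻¹ * (DD α m)⁻¹ * (EE α n)⁻¹, fun m n => ?_, 1, 0, ?_⟩
      · have h1 : 0 < Gamma (1 + ((n : ℝ) + m / α)) := Gamma_pos_of_pos (by positivity)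
        have h2 : 0 < Gamma (α * (1 + ((n : ℝ) + m / α))) := Gamma_pos_of_pos (by positivity)
        have h3 := DD_nonneg α m
        have h4 := EE_nonneg α n
        have := pi_pos
        positivity
      · exact Eventually.of_forall fun ρ hρ => conv_iff_of_one_lt h.1 h.2 hρ.1 hρ.2
  have hae : ∀ (p : ℝ → Prop), (∀ᵐ ρ : ℝ ∂(volume.restrict (Ioc 0 1)), p ρ) →
      ∀ᵐ ρ : ℝ, ρ ∈ Ioo (0 : ℝ) 1 → p ρ := by
    intro p hp
    rw [ae_restrict_iff' measurableSet_Ioc] at hp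
    filter_upwards [hp] with ρ h1 h2
    exact h1 ⟨h2.1, h2.2.le⟩
  rcases cv_zero_one hα0 hirr hc s t with h | h
  · right
    have h1 : ∀ᵐ ρ : ℝ, ρ ∉ {ρ : ℝ | ρ ∈ Ioo (0 : ℝ) 1 ∧ ¬ ConvergesAbsolutely α ρ} := by
      filter_upwards [hae _ h, hiff] with ρ h2 h3 h4
      exact h4.2 ((h3 h4.1).mpr (h2 h4.1))
    exact measure_eq_zero_iff_ae_notMem.mpr h1
  · left
    have h1 : ∀ᵐ ρ : ℝ, ρ ∉ {ρ : ℝ | ρ ∈ Ioo (0 : ℝ) 1 ∧ ConvergesAbsolutely α ρ} := by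
      filter_upwards [hae _ h, hiff] with ρ h2 h3 h4
      exact h2 h4.1 ((h3 h4.1).mp h4.2)
    exact measure_eq_zero_iff_ae_notMem.mpr h1

/-- **Zero-one law.** For every irrational `α ∈ (0,1) ∪ (1,2)`, the set of `ρ ∈ (0,1)` at which the
series converges absolutely has Lebesgue measure `0` or `1`. In particular there is no such `α` for
which this set and its complement in `(0,1)` both have positive measure. -/
theorem result (α : ℝ) (hirr : Irrational α) (hα : α ∈ Ioo (0 : ℝ) 1 ∪ Ioo (1 : ℝ) 2) :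
    (volume {ρ : ℝ | ρ ∈ Ioo (0 : ℝ) 1 ∧ ConvergesAbsolutely α ρ} = 0 ∨
      volume {ρ : ℝ | ρ ∈ Ioo (0 : ℝ) 1 ∧ ConvergesAbsolutely α ρ} = 1) ∧
    ¬ (0 < volume {ρ : ℝ | ρ ∈ Ioo (0 : ℝ) 1 ∧ ConvergesAbsolutely α ρ} ∧
      0 < volume {ρ : ℝ | ρ ∈ Ioo (0 : ℝ) 1 ∧ ¬ ConvergesAbsolutely α ρ}) := by
  rcases zero_or_zero α hirr hα with h | h
  · exact ⟨Or.inl h, fun h' => h'.1.ne' h⟩
  · refine ⟨Or.inr ?_, fun h' => h'.2.ne' h⟩
    have hI : volume (Ioo (0 : ℝ) 1) = 1 := by simp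
    refine le_antisymm ?_ ?_
    · rw [← hI]
      exact measure_mono fun ρ hρ => hρ.1
    · have hsub : Ioo (0 : ℝ) 1 ⊆ {ρ : ℝ | ρ ∈ Ioo (0 : ℝ) 1 ∧ ConvergesAbsolutely α ρ} ∪
          {ρ : ℝ | ρ ∈ Ioo (0 : ℝ) 1 ∧ ¬ ConvergesAbsolutely α ρ} := by
        intro ρ hρ
        by_cases hc : ConvergesAbsolutely α ρ
        · exact Or.inl ⟨hρ, hc⟩
        · exact Or.inr ⟨hρ, hc⟩
      have := (measure_mono hsub).trans (measure_union_le (μ := volume) _ _)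
      rwa [h, add_zero, hI] at this

end Pool.Agent.Results.MP_8ec8f8_pr.ZeroOneLaw
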